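import Mathlib
set_option autoImplicit false
/-!
# Discrete systems attached to families of lines of slope in `[-1, 0]`, and the descent argument
-/
namespace Pool.Agent.K1H58.PC

/-- the discrete system -/
structure DS (n p : ℤ) (N : ℤ → ℤ → ℤ) : Prop where
  bot : ∀ x, 0 ≤ x → x ≤ n → N x 0 = 0
  top : ∀ x, 0 ≤ x → x ≤ n → N x n = p
  right : ∀ x y, 0 ≤ x → x < n → 0 ≤ y → y ≤ n → N x y ≤ N (x + 1) y
  anti : ∀ x y, 0 ≤ x → x < n → 0 ≤ y → y < n → N (x + 1) y ≤ N x (y + 1)
  diag : ∀ x y, 0 ≤ x → x < n → 0 ≤ y → y < n → N (x + 1) (y + 1) ≤ N x y + 1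

variable {n p q : ℤ} {N M : ℤ → ℤ → ℤ}

lemma DS.up (h : DS n p N) (hn : 0 < n) (x y : ℤ) (hx : 0 ≤ x) (hx' : x ≤ n) (hy : 0 ≤ y)
    (hy' : y < n) : N x y ≤ N x (y + 1) ∧ N x (y + 1) ≤ N x y + 1 := by
  rcases eq_or_lt_of_le hx' with rfl | hlt
  · have a1 := h.anti (x - 1) y (by omega) (by omega) hy hy'
    have a2 := h.diag (x - 1) y (by omega) (by omega) hy hy'
    have a3 := h.right (x - 1) (y + 1) (by omega) (by omega) (by omega) (by omega)
    have a4 := h.right (x - 1) y (by omega) (by omega) (by omega) (by omega)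
    rw [sub_add_cancel] at a1 a2 a3 a4
    constructor
    · linarith
    · linarith
  · have a1 := h.anti x y hx hlt hy hy'
    have a2 := h.diag x y hx hlt hy hy'
    have a3 := h.right x (y + 1) hx hlt (by omega) (by omega)
    have a4 := h.right x y hx hlt (by omega) (by omega)
    constructor
    · linarith
    · linarith

/-- the system rotated by a half turn -/
def rot (n p : ℤ) (N : ℤ → ℤ → ℤ) : ℤ → ℤ → ℤ := fun u v => p - N (n - u) (n - v)

lemma DS.rot (h : DS n p N) : DS n p (rot n p N) where
  bot := by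
    intro x hx hx'
    have := h.top (n - x) (by omega) (by omega)
    simp only [PC.rot, sub_zero, this, sub_self]
  top := by
    intro x hx hx'
    have := h.bot (n - x) (by omega) (by omega)
    simp only [PC.rot, sub_self, this, sub_zero]
  right := by
    intro x y hx hx' hy hy'
    have := h.right (n - (x + 1)) (n - y) (by omega) (by omega) (by omega) (by omega)
    rw [show n - (x + 1) + 1 = n - x by ring] at this
    simp only [PC.rot]
    linarith
  anti := by
    intro x y hx hx' hy hy'
    have := h.anti (n - (x + 1)) (n - (y + 1)) (by omega) (by omega) (by omega) (by omega)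
    rw [show n - (x + 1) + 1 = n - x by ring, show n - (y + 1) + 1 = n - y by ring] at this
    simp only [PC.rot]
    linarith
  diag := by
    intro x y hx hx' hy hy'
    have := h.diag (n - (x + 1)) (n - (y + 1)) (by omega) (by omega) (by omega) (by omega)
    rw [show n - (x + 1) + 1 = n - x by ring, show n - (y + 1) + 1 = n - y by ring] at this
    simp only [PC.rot]
    linarith

lemma rot_rot : PC.rot n p (PC.rot n p N) = N := by
  funext u v
  simp only [PC.rot, sub_sub_cancel]

/-- coverage of all cells by the curves of `N` and by the curves of `M` turned by a right angle -/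
def Cover (n : ℤ) (N M : ℤ → ℤ → ℤ) : Prop :=
  ∀ x y, 0 ≤ x → x < n → 0 ≤ y → y < n →
    N x y < N (x + 1) (y + 1) ∨ M (n - 1 - y) x < M (n - 1 - y + 1) (x + 1)

lemma Cover.rot (h : Cover n N M) : Cover n M (PC.rot n p N) := by
  intro x y hx hx' hy hy'
  rcases h y (n - 1 - x) hy hy' (by omega) (by omega) with h1 | h1
  · right
    simp only [PC.rot]
    rw [show n - (n - 1 - y) = y + 1 by ring, show n - (n - 1 - y + 1) = y by ring,
      show n - (x + 1) = n - 1 - x by ring]
    rw [show n - 1 - x + 1 = n - x by ring] at h1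
    linarith
  · left
    rw [show n - 1 - (n - 1 - x) = x by ring] at h1
    exact h1

/-- the descent -/
lemma descent (hn : 0 < n) (hN : DS n p N) (hM : DS n q M) (hc : Cover n N M) (Y y0 : ℤ)
    (hy0 : y0 ≤ n) (hfirst : ∀ y, 0 ≤ y → y < y0 → y - 2 * N 0 y < Y) :
    ∀ k : ℕ, ∀ x y : ℤ, y = k → 0 ≤ x → x + y ≤ y0 - 1 → x + y - 2 * N x y = Y - 1 →
      N (x + 1) y = N x y → x ≤ M (n - y) x →
      ∃ x', 0 ≤ x' ∧ x' ≤ n ∧ Y + (x' - 2 * M n x') ≤ 1 := by
  intro k
  induction k with
  | zero =>
    intro x y hy hx hxy hE hr hJ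
    have hy' : y = 0 := by simpa using hy
    subst hy'
    refine ⟨x, hx, by omega, ?_⟩
    have := hN.bot x hx (by omega)
    rw [sub_zero] at hJ
    omega
  | succ k ih =>
    intro x y hy hx hxy hE hr hJ
    have hy1 : y - 1 = k := by
      rw [hy]; push_cast; ring
    have hy2 : 1 ≤ y := by
      rw [hy]; push_cast; linarith [Nat.cast_nonneg (α := ℤ) k]
    have hup := hN.up hn x (y - 1) hx (by omega) (by omega) (by omega)
    rw [sub_add_cancel] at hup
    by_cases hA : N x (y - 1) = N x y
    · -- case A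
      have a1 := hN.right x (y - 1) hx (by omega) (by omega) (by omega)
      have a2 := hN.anti x (y - 1) hx (by omega) (by omega) (by omega)
      rw [sub_add_cancel] at a2
      have e1 : N (x + 1) (y - 1) = N x y := by omega
      refine ih (x + 1) (y - 1) hy1 (by omega) (by omega) (by omega) ?_ ?_
      · have b1 := hN.anti (x + 1) (y - 1) (by omega) (by omega) (by omega) (by omega)
        have b2 := hN.right (x + 1) (y - 1) (by omega) (by omega) (by omega) (by omega)
        rw [sub_add_cancel] at b1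
        omega
      · rcases hc x (y - 1) hx (by omega) (by omega) (by omega) with h1 | h1
        · exfalso
          rw [sub_add_cancel] at h1
          omega
        · rw [show n - 1 - (y - 1) = n - y by ring, show n - y + 1 = n - (y - 1) by ring] at h1
          omega
    · -- case B
      have e1 : N x (y - 1) = N x y - 1 := by omega
      rcases eq_or_lt_of_le hx with h0 | h0
      · exfalso
        have := hfirst (y - 1) (by omega) (by omega)
        rw [← h0] at e1 hE
        omega
      · have a1 := hN.diag (x - 1) (y - 1) (by omega) (by omega) (by omega) (by omega)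
        have a2 := hN.right (x - 1) (y - 1) (by omega) (by omega) (by omega) (by omega)
        rw [sub_add_cancel] at a1 a2
        rw [sub_add_cancel] at a1
        have e2 : N (x - 1) (y - 1) = N x y - 1 := by omega
        refine ih (x - 1) (y - 1) hy1 (by omega) (by omega) (by omega) ?_ ?_
        · rw [sub_add_cancel]
          omega
        · have b1 := hM.right (n - y) x (by omega) (by omega) (by omega) (by omega)
          have b2 := hM.up hn (n - y + 1) (x - 1) (by omega) (by omega) (by omega) (by omega)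
          rw [sub_add_cancel] at b2
          rw [show n - (y - 1) = n - y + 1 by ring]
          omega

/-- the key inequality -/
lemma key (hn : 0 < n) (hN : DS n p N) (hM : DS n q M) (hc : Cover n N M) :
    ∃ x, 0 ≤ x ∧ x ≤ n ∧ ∀ y, 0 ≤ y → y ≤ n → (y - 2 * N 0 y) + (x - 2 * M n x) ≤ 1 := by
  classical
  obtain ⟨z, hz, hmax⟩ := Finset.exists_max_image (Finset.Icc (0 : ℤ) n) (fun y => y - 2 * N 0 y)
    ⟨0, Finset.mem_Icc.2 ⟨le_refl _, hn.le⟩⟩
  set Y := z - 2 * N 0 z with hY
  have hmax' : ∀ y, 0 ≤ y → y ≤ n → y - 2 * N 0 y ≤ Y := fun y h1 h2 =>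
    hmax y (Finset.mem_Icc.2 ⟨h1, h2⟩)
  by_cases hle : Y ≤ 1
  · refine ⟨0, le_refl _, hn.le, fun y h1 h2 => ?_⟩
    have e := hM.bot n hn.le (le_refl _)
    have := hmax' y h1 h2
    omega
  · push Not at hle
    set S := (Finset.Icc (0 : ℤ) n).filter (fun y => y - 2 * N 0 y = Y) with hS
    have hSne : S.Nonempty := ⟨z, Finset.mem_filter.2 ⟨hz, rfl⟩⟩
    set y0 := S.min' hSne with hy0
    have hy0m := S.min'_mem hSne
    rw [← hy0] at hy0m
    obtain ⟨h1, h2⟩ := Finset.mem_filter.1 hy0m
    obtain ⟨h3, h4⟩ := Finset.mem_Icc.1 h1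
    have hfirst : ∀ y, 0 ≤ y → y < y0 → y - 2 * N 0 y < Y := by
      intro y hy hy'
      refine lt_of_le_of_ne (hmax' y hy (by omega)) (fun he => ?_)
      have := S.min'_le y (Finset.mem_filter.2 ⟨Finset.mem_Icc.2 ⟨hy, by omega⟩, he⟩)
      omega
    have hN0 := hN.bot 0 (le_refl _) hn.le
    have hy0pos : 0 < y0 := by
      rcases eq_or_lt_of_le h3 with h | h
      · rw [← h, hN0] at h2
        omega
      · exact h
    have hup := hN.up hn 0 (y0 - 1) (le_refl _) hn.le (by omega) (by omega)
    rw [sub_add_cancel] at hup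
    have hf := hfirst (y0 - 1) (by omega) (by omega)
    have e1 : N 0 (y0 - 1) = N 0 y0 := by omega
    have a1 := hN.right 0 (y0 - 1) (le_refl _) hn (by omega) (by omega)
    have a2 := hN.anti 0 (y0 - 1) (le_refl _) hn (by omega) (by omega)
    rw [sub_add_cancel] at a2
    obtain ⟨x, hx, hx', hx3⟩ := descent hn hN hM hc Y y0 h4 hfirst (y0 - 1).toNat 0 (y0 - 1)
      (by omega) (le_refl _) (by omega) (by omega) (by omega)
      (by rw [hM.bot (n - (y0 - 1)) (by omega) (by omega)])
    refine ⟨x, hx, hx', fun y h5 h6 => ?_⟩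
    have := hmax' y h5 h6
    omega

/-- two perpendicular octants -/
theorem perp (hn : 0 < n) (hN : DS n p N) (hM : DS n q M) (hc : Cover n N M) : n - 1 ≤ p + q := by
  have hc2 : Cover n M (PC.rot n p N) := hc.rot
  have hc3 : Cover n (PC.rot n p N) (PC.rot n q M) := hc2.rot
  have hc4 : Cover n (PC.rot n q M) N := by
    have := hc3.rot (p := p)
    rwa [rot_rot] at this
  obtain ⟨x1, a1, b1, c1⟩ := key hn hN hM hc
  obtain ⟨x2, a2, b2, c2⟩ := key hn hM hN.rot hc2
  obtain ⟨x3, a3, b3, c3⟩ := key hn hN.rot hM.rot hc3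
  obtain ⟨x4, a4, b4, c4⟩ := key hn hM.rot hN hc4
  have d1 := c1 (n - x2) (by omega) (by omega)
  have d2 := c2 (n - x3) (by omega) (by omega)
  have d3 := c3 (n - x4) (by omega) (by omega)
  have d4 := c4 (n - x1) (by omega) (by omega)
  simp only [PC.rot, sub_self, sub_sub_cancel, sub_zero] at d1 d2 d3 d4
  linarith

end Pool.Agent.K1H58.PC
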