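import Mathlib
import Pool.Agent.K1H58.PC.DS
set_option autoImplicit false
/-!
# From a family of lines of slope in `[-1, 0]` to a discrete system
-/
namespace Pool.Agent.K1H58.PC
open Finset

variable {ι : Type*}

/-- the number of lines `y + σ x = c` strictly below the lattice point `(x, y)` -/
noncomputable def cnt (P : Finset ι) (σ c : ι → ℝ) (x y : ℤ) : ℤ :=
  ((P.filter (fun i => c i < (y : ℝ) + σ i * x)).card : ℤ)

/-- the clamped count -/
noncomputable def N1 (n : ℤ) (P : Finset ι) (σ c : ι → ℝ) (x y : ℤ) : ℤ :=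
  if y ≤ 0 then 0 else if n ≤ y then (P.card : ℤ) else cnt P σ c x y

section
variable (n : ℤ) (P : Finset ι) (σ c : ι → ℝ)

lemma cnt_nonneg (x y : ℤ) : 0 ≤ cnt P σ c x y := by
  unfold cnt
  positivity

lemma cnt_le (x y : ℤ) : cnt P σ c x y ≤ P.card := by
  unfold cnt
  exact_mod_cast Finset.card_filter_le _ _

lemma cnt_right (h0 : ∀ i ∈ P, 0 ≤ σ i) (x y : ℤ) : cnt P σ c x y ≤ cnt P σ c (x + 1) y := by
  unfold cnt
  have : P.filter (fun i => c i < (y : ℝ) + σ i * x) ⊆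
      P.filter (fun i => c i < (y : ℝ) + σ i * ((x + 1 : ℤ) : ℝ)) := by
    intro i hi
    rw [Finset.mem_filter] at hi ⊢
    refine ⟨hi.1, ?_⟩
    have := h0 i hi.1
    have h2 := hi.2
    push_cast
    nlinarith
  exact_mod_cast Finset.card_le_card this

lemma cnt_anti (h1 : ∀ i ∈ P, σ i ≤ 1) (x y : ℤ) : cnt P σ c (x + 1) y ≤ cnt P σ c x (y + 1) := by
  unfold cnt
  have : P.filter (fun i => c i < (y : ℝ) + σ i * ((x + 1 : ℤ) : ℝ)) ⊆
      P.filter (fun i => c i < ((y + 1 : ℤ) : ℝ) + σ i * x) := by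
    intro i hi
    rw [Finset.mem_filter] at hi ⊢
    refine ⟨hi.1, ?_⟩
    have := h1 i hi.1
    have h2 := hi.2
    push_cast at h2 ⊢
    nlinarith
  exact_mod_cast Finset.card_le_card this

lemma cnt_diag (h0 : ∀ i ∈ P, 0 ≤ σ i) (x y : ℤ) (i : ι) (hi : i ∈ P)
    (ha : (y : ℝ) + σ i * x < c i) (hb : c i < (y : ℝ) + 1 + σ i * (x + 1)) :
    cnt P σ c x y + 1 ≤ cnt P σ c (x + 1) (y + 1) := by
  unfold cnt
  have hsub : P.filter (fun i => c i < (y : ℝ) + σ i * x) ⊂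
      P.filter (fun i => c i < ((y + 1 : ℤ) : ℝ) + σ i * ((x + 1 : ℤ) : ℝ)) := by
    rw [Finset.ssubset_iff_of_subset]
    · refine ⟨i, ?_, ?_⟩
      · rw [Finset.mem_filter]
        refine ⟨hi, ?_⟩
        push_cast
        exact hb
      · rw [Finset.mem_filter]
        rintro ⟨-, h⟩
        linarith
    · intro j hj
      rw [Finset.mem_filter] at hj ⊢
      refine ⟨hj.1, ?_⟩
      have := h0 j hj.1
      have h2 := hj.2
      push_cast
      nlinarith
  have := Finset.card_lt_card hsub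
  push_cast at this ⊢
  exact_mod_cast this

lemma N1_nonneg (x y : ℤ) : 0 ≤ N1 n P σ c x y := by
  unfold N1
  split_ifs
  · exact le_refl _
  · positivity
  · exact cnt_nonneg P σ c x y

lemma N1_right (h0 : ∀ i ∈ P, 0 ≤ σ i) (x y : ℤ) : N1 n P σ c x y ≤ N1 n P σ c (x + 1) y := by
  unfold N1
  split_ifs
  · exact le_refl _
  · exact le_refl _
  · exact cnt_right P σ c h0 x y

lemma N1_anti (hn : 0 < n) (h1 : ∀ i ∈ P, σ i ≤ 1) (x y : ℤ) :
    N1 n P σ c (x + 1) y ≤ N1 n P σ c x (y + 1) := by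
  unfold N1
  have e1 := cnt_nonneg P σ c x (y + 1)
  have e2 := cnt_le P σ c (x + 1) y
  have e3 := cnt_anti P σ c h1 x y
  have e4 : (0 : ℤ) ≤ P.card := by positivity
  split_ifs <;> first | omega | linarith

lemma N1_diag (h0 : ∀ i ∈ P, 0 ≤ σ i) (x y : ℤ) (hy : 0 ≤ y) (hy' : y < n) (i : ι) (hi : i ∈ P)
    (ha : (y : ℝ) + σ i * x < c i) (hb : c i < (y : ℝ) + 1 + σ i * (x + 1)) :
    N1 n P σ c x y + 1 ≤ N1 n P σ c (x + 1) (y + 1) := by
  have e1 := cnt_nonneg P σ c x y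
  have e2 := cnt_le P σ c (x + 1) (y + 1)
  have e3 := cnt_diag P σ c h0 x y i hi ha hb
  unfold N1
  split_ifs <;> first | omega | linarith

/-- the regularised count, as a function of the height first -/
noncomputable def N2 : ℕ → ℤ → ℤ
  | 0, _ => 0
  | y + 1, x => min (N1 n P σ c x ((y : ℤ) + 1)) (N2 y (x - 1) + 1)

lemma N2_nonneg (y : ℕ) : ∀ x, 0 ≤ N2 n P σ c y x := by
  induction y with
  | zero => intro x; exact le_refl _
  | succ y ih =>
    intro x
    rw [N2]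
    have := ih (x - 1)
    have := N1_nonneg n P σ c x ((y : ℤ) + 1)
    omega

lemma N2_le (y : ℕ) (x : ℤ) : N2 n P σ c y x ≤ N1 n P σ c x y := by
  cases y with
  | zero => exact N1_nonneg n P σ c x _
  | succ y =>
    rw [N2]
    push_cast
    exact min_le_left _ _

lemma N2_right (h0 : ∀ i ∈ P, 0 ≤ σ i) (y : ℕ) :
    ∀ x, N2 n P σ c y x ≤ N2 n P σ c y (x + 1) := by
  induction y with
  | zero => intro x; exact le_refl _
  | succ y ih =>
    intro x
    rw [N2, N2]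
    have h1 := ih (x - 1)
    rw [sub_add_cancel] at h1
    have h2 := N1_right n P σ c h0 x ((y : ℤ) + 1)
    rw [add_sub_cancel_right]
    omega

lemma N2_skip (hn : 0 < n) (h0 : ∀ i ∈ P, 0 ≤ σ i) (h1 : ∀ i ∈ P, σ i ≤ 1) (y : ℕ) :
    ∀ x, N2 n P σ c y (x + 1) ≤ N2 n P σ c y (x - 1) + 1 := by
  induction y with
  | zero => intro x; simp [N2]
  | succ y ih =>
    intro x
    rw [N2, N2, add_sub_cancel_right]
    have e1 : N2 n P σ c y x ≤ N1 n P σ c (x - 1) ((y : ℤ) + 1) := by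
      refine (N2_le n P σ c y x).trans ?_
      have := N1_anti n P σ c hn h1 (x - 1) y
      rwa [sub_add_cancel] at this
    have e2 := ih (x - 1)
    rw [sub_add_cancel] at e2
    omega

lemma N2_anti (hn : 0 < n) (h0 : ∀ i ∈ P, 0 ≤ σ i) (h1 : ∀ i ∈ P, σ i ≤ 1) (y : ℕ) (x : ℤ) :
    N2 n P σ c y (x + 1) ≤ N2 n P σ c (y + 1) x := by
  rw [N2]
  refine le_min ?_ (N2_skip n P σ c hn h0 h1 y x)
  exact (N2_le n P σ c y (x + 1)).trans (N1_anti n P σ c hn h1 x y)

lemma N2_diag (y : ℕ) (x : ℤ) : N2 n P σ c (y + 1) (x + 1) ≤ N2 n P σ c y x + 1 := by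
  rw [N2, add_sub_cancel_right]
  exact min_le_right _ _

lemma N2_cov (h0 : ∀ i ∈ P, 0 ≤ σ i) (y : ℕ) (x : ℤ) (hy' : (y : ℤ) < n) (i : ι) (hi : i ∈ P)
    (ha : (y : ℝ) + σ i * x < c i) (hb : c i < (y : ℝ) + 1 + σ i * (x + 1)) :
    N2 n P σ c (y + 1) (x + 1) = N2 n P σ c y x + 1 := by
  rw [N2, add_sub_cancel_right]
  apply min_eq_right
  have := N1_diag n P σ c h0 x y (by positivity) hy' i hi (by exact_mod_cast ha)
    (by exact_mod_cast hb)
  have := N2_le n P σ c y x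
  omega

/-- the final system -/
noncomputable def N3 (x y : ℤ) : ℤ := max (N2 n P σ c y.toNat x) (y - (n - P.card))

lemma N3_DS (hn : 0 < n) (h0 : ∀ i ∈ P, 0 ≤ σ i) (h1 : ∀ i ∈ P, σ i ≤ 1)
    (hp : (P.card : ℤ) ≤ n) : DS n P.card (N3 n P σ c) where
  bot := by
    intro x _ _
    simp only [N3, Int.toNat_zero, N2]
    omega
  top := by
    intro x _ _
    simp only [N3]
    have h2 := N2_le n P σ c n.toNat x
    have e : ((n.toNat : ℕ) : ℤ) = n := Int.toNat_of_nonneg hn.le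
    rw [e] at h2
    unfold N1 at h2
    rw [if_neg (by omega), if_pos (le_refl _)] at h2
    omega
  right := by
    intro x y _ _ _ _
    simp only [N3]
    have := N2_right n P σ c h0 y.toNat x
    omega
  anti := by
    intro x y _ _ hy _
    simp only [N3]
    have := N2_anti n P σ c hn h0 h1 y.toNat x
    rw [show (y + 1).toNat = y.toNat + 1 by omega]
    omega
  diag := by
    intro x y _ _ hy _
    simp only [N3]
    have := N2_diag n P σ c y.toNat x
    rw [show (y + 1).toNat = y.toNat + 1 by omega]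
    omega

lemma N3_cov (h0 : ∀ i ∈ P, 0 ≤ σ i) (x y : ℤ) (hy : 0 ≤ y) (hy' : y < n) (i : ι) (hi : i ∈ P)
    (ha : (y : ℝ) + σ i * x < c i) (hb : c i < (y : ℝ) + 1 + σ i * (x + 1)) :
    N3 n P σ c x y < N3 n P σ c (x + 1) (y + 1) := by
  simp only [N3]
  obtain ⟨k, rfl⟩ := Int.eq_ofNat_of_zero_le hy
  have := N2_cov n P σ c h0 k x (by omega) i hi (by exact_mod_cast ha) (by exact_mod_cast hb)
  rw [show ((k : ℤ) + 1).toNat = k + 1 by omega, show ((k : ℤ)).toNat = k by omega]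
  omega

end

/-- the discrete system of a family of lines -/
theorem exists_DS (n : ℤ) (hn : 0 < n) (P : Finset ι) (σ c : ι → ℝ) (h0 : ∀ i ∈ P, 0 ≤ σ i)
    (h1 : ∀ i ∈ P, σ i ≤ 1) (hp : (P.card : ℤ) ≤ n) :
    ∃ N : ℤ → ℤ → ℤ, DS n P.card N ∧ ∀ x y : ℤ, 0 ≤ y → y < n → ∀ i ∈ P,
      (y : ℝ) + σ i * x < c i → c i < (y : ℝ) + 1 + σ i * (x + 1) →
      N x y < N (x + 1) (y + 1) :=
  ⟨N3 n P σ c, N3_DS n P σ c hn h0 h1 hp, fun x y hy hy' i hi ha hb =>
    N3_cov n P σ c h0 x y hy hy' i hi ha hb⟩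

end Pool.Agent.K1H58.PC
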