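import Mathlib
import Pool.Agent.K1H58.PC.Shallow
set_option autoImplicit false
/-!
# Three octants: a weaker bound
-/
namespace Pool.Agent.K1H58.PC

variable {n p q r : ℤ} {N M K : ℤ → ℤ → ℤ}

/-- coverage by three classes -/
def Cover3 (n : ℤ) (N M K : ℤ → ℤ → ℤ) : Prop :=
  ∀ x y, 0 ≤ x → x < n → 0 ≤ y → y < n →
    N x y < N (x + 1) (y + 1) ∨ M (n - 1 - x) y < M (n - 1 - x + 1) (y + 1) ∨
      K (n - 1 - y) x < K (n - 1 - y + 1) (x + 1)

lemma desc3 (hn : 0 < n) (hN : DS n p N) (hM : DS n q M) (hK : DS n r K) (hc : Cover3 n N M K)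
    (e : ℤ) (hL : ∀ y, 0 ≤ y → y ≤ n → y - 2 * N 0 y ≤ e)
    (hR : ∀ y, 0 ≤ y → y ≤ n → e ≤ n + y - 2 * N n y) :
    ∀ k : ℕ, ∀ x y : ℤ, y = k → 0 ≤ x → x ≤ n → y ≤ n → x + y - 2 * N x y = e →
      (x < n → N (x + 1) y = N x y) → y ≤ 2 * N x y + M (n - x) y + (K n e - K (n - y) x) := by
  intro k
  induction k with
  | zero =>
    intro x y hy hx hxn _ he _
    have hy' : y = 0 := by simpa using hy
    subst hy'
    have h0 := hN.bot x (by omega) (by omega)
    have hxe : x = e := by omega
    rw [h0, hM.bot (n - x) (by omega) (by omega), hxe]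
    simp
  | succ k ih =>
    intro x y hy hx hxn hyn he hr
    have hy1 : y - 1 = k := by
      rw [hy]; push_cast; ring
    have hy2 : 1 ≤ y := by
      rw [hy]; push_cast; linarith [Nat.cast_nonneg (α := ℤ) k]
    have hup := hN.up hn x (y - 1) (by omega) (by omega) (by omega) (by omega)
    rw [sub_add_cancel] at hup
    by_cases hA : N x (y - 1) = N x y
    · have hxlt : x < n := by
        rcases eq_or_lt_of_le hxn with h | h
        · exfalso
          have := hR (y - 1) (by omega) (by omega)
          rw [h] at hA he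
          omega
        · exact h
      have hr' := hr hxlt
      have a1 := hN.right x (y - 1) (by omega) (by omega) (by omega) (by omega)
      have a2 := hN.anti x (y - 1) (by omega) (by omega) (by omega) (by omega)
      rw [sub_add_cancel] at a2
      have e1 : N (x + 1) (y - 1) = N x y := by omega
      have h2 := ih (x + 1) (y - 1) hy1 (by omega) (by omega) (by omega) (by omega) (by
        intro hlt
        have b1 := hN.anti (x + 1) (y - 1) (by omega) (by omega) (by omega) (by omega)
        have b2 := hN.right (x + 1) (y - 1) (by omega) (by omega) (by omega) (by omega)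
        rw [sub_add_cancel] at b1
        omega)
      -- monotonicity of the other two classes along the step
      have m1 := hM.right (n - (x + 1)) (y - 1) (by omega) (by omega) (by omega) (by omega)
      have m2 := hM.up hn (n - x) (y - 1) (by omega) (by omega) (by omega) (by omega)
      have k1 := hK.right (n - y) x (by omega) (by omega) (by omega) (by omega)
      have k2 := hK.up hn (n - (y - 1)) x (by omega) (by omega) (by omega) (by omega)
      rw [sub_add_cancel] at m2
      rw [show n - (x + 1) + 1 = n - x by ring] at m1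
      rw [show n - y + 1 = n - (y - 1) by ring] at k1
      rcases hc x (y - 1) (by omega) (by omega) (by omega) (by omega) with h1 | h1 | h1
      · exfalso
        rw [sub_add_cancel] at h1
        omega
      · rw [show n - 1 - x = n - (x + 1) by ring, show n - (x + 1) + 1 = n - x by ring,
          sub_add_cancel] at h1
        omega
      · rw [show n - 1 - (y - 1) = n - y by ring, show n - y + 1 = n - (y - 1) by ring] at h1
        omega
    · have e1 : N x (y - 1) = N x y - 1 := by omega
      have hx0 : 0 < x := by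
        rcases eq_or_lt_of_le hx with h | h
        · exfalso
          have := hL (y - 1) (by omega) (by omega)
          rw [← h] at e1 he
          omega
        · exact h
      have a1 := hN.diag (x - 1) (y - 1) (by omega) (by omega) (by omega) (by omega)
      have a2 := hN.right (x - 1) (y - 1) (by omega) (by omega) (by omega) (by omega)
      rw [sub_add_cancel] at a1 a2
      rw [sub_add_cancel] at a1
      have e2 : N (x - 1) (y - 1) = N x y - 1 := by omega
      have h2 := ih (x - 1) (y - 1) hy1 (by omega) (by omega) (by omega) (by omega) (by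
        intro _
        rw [sub_add_cancel]
        omega)
      have b1 := hM.anti (n - x) (y - 1) (by omega) (by omega) (by omega) (by omega)
      rw [sub_add_cancel] at b1
      rw [show n - (x - 1) = n - x + 1 by ring] at h2
      have c1 := hK.right (n - y) x (by omega) (by omega) (by omega) (by omega)
      have c2 := hK.up hn (n - y + 1) (x - 1) (by omega) (by omega) (by omega) (by omega)
      rw [sub_add_cancel] at c2
      rw [show n - (y - 1) = n - y + 1 by ring] at h2
      omega

/-- three octants -/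
theorem three (hn : 0 < n) (hN : DS n p N) (hM : DS n q M) (hK : DS n r K)
    (hc : Cover3 n N M K) : n ≤ 2 * p + q + r := by
  classical
  obtain ⟨z, hz, hmax⟩ := Finset.exists_max_image (Finset.Icc (0 : ℤ) n) (fun y => y - 2 * N 0 y)
    ⟨0, Finset.mem_Icc.2 ⟨le_refl _, hn.le⟩⟩
  obtain ⟨hz1, hz2⟩ := Finset.mem_Icc.1 hz
  set e := z - 2 * N 0 z with he
  have hL : ∀ y, 0 ≤ y → y ≤ n → y - 2 * N 0 y ≤ e := fun y h1 h2 =>
    hmax y (Finset.mem_Icc.2 ⟨h1, h2⟩)
  have hR : ∀ y, 0 ≤ y → y ≤ n → e ≤ n + y - 2 * N n y := by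
    intro y h1 h2
    have a1 := (hN.vert hn n hn.le (le_refl _) 0 (le_refl _) y.toNat (by omega)).1
    have a2 := (hN.vert hn n hn.le (le_refl _) y h1 (n - y).toNat (by omega)).2
    have a3 := (hN.vert hn 0 (le_refl _) hn.le z hz1 (n - z).toNat (by omega)).1
    have a4 := (hN.vert hn 0 (le_refl _) hn.le 0 (le_refl _) z.toNat (by omega)).2
    rw [show (0 : ℤ) + (y.toNat : ℤ) = y by omega] at a1
    rw [show y + ((n - y).toNat : ℤ) = n by omega] at a2
    rw [show z + ((n - z).toNat : ℤ) = n by omega] at a3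
    rw [show (0 : ℤ) + (z.toNat : ℤ) = z by omega] at a4
    have b1 := hN.bot n hn.le (le_refl _)
    have b2 := hN.top n hn.le (le_refl _)
    have b3 := hN.top 0 (le_refl _) hn.le
    have b4 := hN.bot 0 (le_refl _) hn.le
    omega
  have t0 := hN.top 0 (le_refl _) hn.le
  have tn := hN.top n hn.le (le_refl _)
  have c0 := hL 0 (le_refl _) hn.le
  have c1 := hL n hn.le (le_refl _)
  have c2 := hR n hn.le (le_refl _)
  have c3 := hR 0 (le_refl _) hn.le
  have z0 := hN.bot 0 (le_refl _) hn.le
  have zn := hN.bot n hn.le (le_refl _)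
  have tx := hN.top (e - n + 2 * p) (by omega) (by omega)
  have key := desc3 hn hN hM hK hc e hL hR n.toNat (e - n + 2 * p) n (by omega) (by omega)
    (by omega) (le_refl _) (by rw [tx]; ring) (by
      intro hlt
      rw [tx, hN.top (e - n + 2 * p + 1) (by omega) (by omega)])
  rw [tx, hM.top (n - (e - n + 2 * p)) (by omega) (by omega), sub_self] at key
  have k1 := (hK.vert hn n hn.le (le_refl _) e (by omega) (n - e).toNat (by omega)).2
  rw [show e + ((n - e).toNat : ℤ) = n by omega, hK.top n hn.le (le_refl _)] at k1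
  have k2 := (hK.vert hn 0 (le_refl _) hn.le 0 (le_refl _) (e - n + 2 * p).toNat (by omega)).2
  rw [show (0 : ℤ) + ((e - n + 2 * p).toNat : ℤ) = e - n + 2 * p by omega,
    hK.bot 0 (le_refl _) hn.le] at k2
  omega

/-- the bound for lines of slope in `[-1, 0]` (family `P`), in `[0, 1]` (family `Q`) and
`≥ 1` (family `R`) -/
theorem core_three {ι : Type*} (n : ℤ) (hn : 0 < n) (P Q R : Finset ι) (s c t d u v : ι → ℝ)
    (h0 : ∀ i ∈ P, 0 ≤ s i) (h1 : ∀ i ∈ P, s i ≤ 1) (k0 : ∀ i ∈ Q, 0 ≤ t i) (k1 : ∀ i ∈ Q, t i ≤ 1)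
    (l0 : ∀ i ∈ R, 0 ≤ u i) (l1 : ∀ i ∈ R, u i ≤ 1)
    (hcov : ∀ x y : ℤ, 0 ≤ x → x < n → 0 ≤ y → y < n →
      (∃ i ∈ P, (y : ℝ) + s i * x < c i ∧ c i < (y : ℝ) + 1 + s i * (x + 1)) ∨
      (∃ i ∈ Q, (y : ℝ) - t i * (x + 1) < d i ∧ d i < (y : ℝ) + 1 - t i * x) ∨
      (∃ i ∈ R, (x : ℝ) - u i * (y + 1) < v i ∧ v i < (x : ℝ) + 1 - u i * y)) :
    n ≤ 2 * (P.card : ℤ) + Q.card + R.card := by
  by_contra hlt
  push Not at hlt
  have hP : (0 : ℤ) ≤ P.card := by positivity
  have hQ : (0 : ℤ) ≤ Q.card := by positivity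
  have hR : (0 : ℤ) ≤ R.card := by positivity
  obtain ⟨N, hN, hN'⟩ := exists_DS n hn P s c h0 h1 (by omega)
  obtain ⟨M, hM, hM'⟩ := exists_DS n hn Q t (fun i => d i + t i * n) k0 k1 (by omega)
  obtain ⟨K, hK, hK'⟩ := exists_DS n hn R u (fun i => v i + u i * n) l0 l1 (by omega)
  refine absurd (three hn hN hM hK ?_) (by omega)
  intro x y hx hx' hy hy'
  rcases hcov x y hx hx' hy hy' with ⟨i, hi, ha, hb⟩ | ⟨i, hi, ha, hb⟩ | ⟨i, hi, ha, hb⟩
  · left
    exact hN' x y hy hy' i hi ha hb
  · right; left
    refine hM' (n - 1 - x) y hy hy' i hi ?_ ?_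
    · push_cast
      nlinarith
    · push_cast
      nlinarith
  · right; right
    refine hK' (n - 1 - y) x hx hx' i hi ?_ ?_
    · push_cast
      nlinarith
    · push_cast
      nlinarith

end Pool.Agent.K1H58.PC
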